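import Pool.Agent.H37.Blm2

namespace Pool.Agent.Results.MP_9ab454_lc.No

open Pool.Agent.H37.Blm

theorem result : ∃ B : Blum, B.Conform ∧ ∃ t : ℕ → ℕ, Computable t ∧ ¬ B.REClass (B.cls t) :=
  ⟨B0, fun _ _ h1 h2 _ _ => ⟨reduce h1 h2, reduce h2 h1⟩, fun _ => 0, Computable.const 0, not_re⟩

end Pool.Agent.Results.MP_9ab454_lc.No
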